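import Pool.Agent.H6.G9.Targets
import Pool.Agent.H84.GS.Bas
import Pool.Agent.H72.GS2.LVG

/-!
# Theorem (H), MP_c59857_nt, row BSU: the inequality of Bessel for the functional `UB`
-/

set_option autoImplicit false

namespace Pool.Agent.H38.G9.BSU

open Finset Pool.Agent.H6.N4D Pool.Agent.H93 Pool.Agent.H93.GS Pool.Agent.H6.GS2 Pool.Agent.H6.G9
open Pool.Agent.H3.BT (fs tt NCt TC Pt)

theorem fam_f (J : ℕ) (φ : ℕ → ℕ → ℝ) (u : ℕ → ℕ → ℂ) (q x : ℕ) :
    (fam J φ u q).f x = fs J (fun r => u r q) (fun r => φ r q) x := rfl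

theorem fam_nm (m J : ℕ) (A : ℝ) (φ : ℕ → ℕ → ℝ) (u : ℕ → ℕ → ℂ) (h : Adm m J A φ u) (q : ℕ) :
    (fam J φ u q).nm ≤ J * A := by
  unfold Ex.nm
  refine (Finset.sum_le_sum fun j _ => h.cb j q).trans ?_
  show ∑ _j ∈ range J, A ≤ J * A
  rw [Finset.sum_const, card_range, nsmul_eq_mul]

theorem ar_one (N n : ℕ) (F : ℕ → ℝ) : ar 1 N n F = (∑ x ∈ Ioc n (n + N), F x) / N := by
  unfold ar
  rw [Finset.filter_true_of_mem fun x _ => one_dvd x]
  simp

theorem ar_mono (q N n : ℕ) (F G : ℕ → ℝ) (h : ∀ x, F x ≤ G x) : ar q N n F ≤ ar q N n G := by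
  unfold ar
  exact div_le_div_of_nonneg_right (mul_le_mul_of_nonneg_right
    (Finset.sum_le_sum fun x _ => h x) (Nat.cast_nonneg _)) (Nat.cast_nonneg _)

theorem ar_lin (q N n : ℕ) (F : ℕ → ℝ) (a b : ℝ) :
    ar q N n (fun x => a * 1 + b * F x) = a * ar q N n (fun _ => 1) + b * ar q N n F := by
  unfold ar
  rw [Finset.sum_add_distrib, ← Finset.mul_sum, ← Finset.mul_sum]
  ring

theorem ar_nonneg (q N n : ℕ) (F : ℕ → ℝ) (h : ∀ x, 0 ≤ F x) : 0 ≤ ar q N n F := by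
  unfold ar
  exact div_nonneg (mul_nonneg (Finset.sum_nonneg fun x _ => h x) (Nat.cast_nonneg _))
    (Nat.cast_nonneg _)

/-- the mean of a function by its mean square -/
theorem ar_half (q N n : ℕ) (F : ℕ → ℝ) (d : ℝ) (hd : 0 < d) (hq : 1 ≤ q) (hqN : q ≤ N) :
    ar q N n F ≤ d + 1 / (2 * d) * ar q N n (fun x => F x ^ 2) := by
  have h1 : ar q N n F ≤ ar q N n (fun x => d / 2 * 1 + 1 / (2 * d) * F x ^ 2) := by
    refine ar_mono q N n _ _ fun x => ?_
    have h2 : d / 2 * 1 + 1 / (2 * d) * F x ^ 2 - F x = (F x - d) ^ 2 / (2 * d) := by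
      field_simp
      ring
    have h3 : 0 ≤ (F x - d) ^ 2 / (2 * d) := by positivity
    linarith
  rw [ar_lin q N n (fun x => F x ^ 2)] at h1
  have h2 := Pool.Agent.H84.GS.ar_le q N n (fun _ => 1) hq hqN fun _ => le_rfl
  have h3 := mul_le_mul_of_nonneg_left h2 (by positivity : 0 ≤ d / 2)
  linarith

theorem tx_eq (lam : ℕ → ℝ) (q N n : ℕ) (F : Ex) : tx lam q N n F =
    (∑ x ∈ Ioc n (n + N), (lam x : ℂ) * (EB.D q x : ℂ) * starRingEnd ℂ (F.f x)) / N := by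
  unfold tx ac
  rw [Finset.filter_true_of_mem fun x _ => one_dvd x]
  simp only [Nat.cast_one, mul_one]
  congr 1
  refine Finset.sum_congr rfl fun x _ => ?_
  ring

theorem norm_D (q x : ℕ) : |EB.D q x| ≤ (if q ∣ x then (q : ℝ) else 0) + 1 := by
  unfold EB.D
  split_ifs
  · rw [abs_le]
    constructor <;> linarith [Nat.cast_nonneg (α := ℝ) q]
  · simp

/-- the trivial bound of the test -/
theorem tx_le (lam : ℕ → ℝ) (q N n : ℕ) (F : Ex) (hl : ∀ n, |lam n| ≤ 1) :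
    ‖tx lam q N n F‖ ≤ ar q N n (fun x => ‖F.f x‖) + ar 1 N n (fun x => ‖F.f x‖) := by
  rw [tx_eq, ar_one, norm_div, Complex.norm_natCast]
  unfold ar
  rw [← add_div]
  refine div_le_div_of_nonneg_right ?_ (Nat.cast_nonneg _)
  refine (norm_sum_le _ _).trans ?_
  rw [Finset.sum_filter, Finset.sum_mul, ← Finset.sum_add_distrib]
  refine Finset.sum_le_sum fun x _ => ?_
  rw [norm_mul, norm_mul, RCLike.norm_conj, Complex.norm_real, Complex.norm_real,
    Real.norm_eq_abs, Real.norm_eq_abs]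
  have h1 := norm_D q x
  have h2 := hl x
  have h3 := norm_nonneg (F.f x)
  have h4 := abs_nonneg (EB.D q x)
  have h5 : |lam x| * |EB.D q x| ≤ 1 * ((if q ∣ x then (q : ℝ) else 0) + 1) :=
    mul_le_mul h2 h1 h4 zero_le_one
  have h6 := mul_le_mul_of_nonneg_right h5 h3
  refine h6.trans (le_of_eq ?_)
  split_ifs <;> ring

theorem core (hN : T_NRS) : ∃ m₁ : ℕ, ∀ (J : ℕ) (A B' d : ℝ) (lam : ℕ → ℝ) (m n : ℕ)
    (φ : ℕ → ℕ → ℝ) (u : ℕ → ℕ → ℂ), m₁ ≤ m → 0 < d → 0 ≤ A → A / d ≤ B' →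
    ((J : ℝ) * A) ^ 2 * (1 / 2) ^ (m / 300) ≤ d ^ 2 → (∀ n, |lam n| ≤ 1) → Adm m J A φ u →
    ∃ (b : ℕ → ℕ → ℂ) (α : ℕ → ℕ → ℝ), TC m n J B' b α ∧
      fv lam m n J φ u ≤ Pt lam m n J b α + 12 * d := by
  obtain ⟨m₂, hN⟩ := hN
  obtain ⟨m₃, hM⟩ := Pool.Agent.H72.GS2.mu_le
  refine ⟨max m₂ m₃, ?_⟩
  intro J A B' d lam m n φ u hm hd hA hAB hJ hl hu
  have hB0 : 0 ≤ B' := (by positivity : 0 ≤ A / d).trans hAB
  set ρ2 : ℕ → ℝ := fun q => ar 1 (2 ^ m) n (fun x => ‖(fam J φ u q).f x‖ ^ 2) with hρ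
  have hρ0 : ∀ q, 0 ≤ ρ2 q := fun q => ar_nonneg _ _ _ _ fun x => sq_nonneg _
  have hNm : (0 : ℝ) < ((2 ^ m : ℕ) : ℝ) := by positivity
  have hρs : ∀ q, ∑ x ∈ Ioc n (n + 2 ^ m), ‖(fam J φ u q).f x‖ ^ 2 = ρ2 q * ((2 ^ m : ℕ) : ℝ) := by
    intro q
    rw [hρ]
    beta_reduce
    rw [ar_one, div_mul_cancel₀ _ hNm.ne']
  have hq1 : ∀ q ∈ EB.QQ m, 1 ≤ q ∧ q ≤ 2 ^ m := by
    intro q hq
    unfold EB.QQ at hq
    rw [mem_filter, mem_Ioc] at hq
    refine ⟨hq.2.one_lt.le, hq.1.2.trans (Nat.pow_le_pow_right (by norm_num) ?_)⟩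
    exact Nat.div_le_self _ _
  have hnr : ∀ q ∈ EB.QQ m, |nrm q (2 ^ m) n (fam J φ u q)| ≤ d ^ 2 := by
    intro q hq
    have h1 := hN m (2 ^ m) n q (fam J φ u q) ((le_max_left _ _).trans hm) (by omega) hq
      (fun i hi j hj h2 h3 => hu.cl q hq i hi j hj h2 h3)
    refine h1.trans (le_trans ?_ hJ)
    refine mul_le_mul_of_nonneg_right ?_ (by positivity)
    have h2 := fam_nm m J A φ u hu q
    have h3 := Pool.Agent.H84.GS.nm_nonneg (fam J φ u q)
    nlinarith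
  have hqs : ∀ q ∈ EB.QQ m, ar q (2 ^ m) n (fun x => ‖(fam J φ u q).f x‖ ^ 2) ≤ ρ2 q + d ^ 2 := by
    intro q hq
    have h1 := (abs_le.mp (hnr q hq)).2
    unfold nrm at h1
    rw [hρ]
    beta_reduce
    linarith
  set b : ℕ → ℕ → ℂ := fun q r => if d ^ 2 ≤ ρ2 q then u r q / (√(ρ2 q) : ℝ) else 0 with hb
  have hfs : ∀ q x, d ^ 2 ≤ ρ2 q → fs J (b q) (fun r => φ r q) x =
      (fam J φ u q).f x / (√(ρ2 q) : ℝ) := by
    intro q x hq
    rw [fam_f]
    unfold fs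
    rw [Finset.sum_div]
    refine Finset.sum_congr rfl fun r _ => ?_
    rw [hb]
    beta_reduce
    rw [if_pos hq]
    ring
  have hfs0 : ∀ q x, ¬ d ^ 2 ≤ ρ2 q → fs J (b q) (fun r => φ r q) x = 0 := by
    intro q x hq
    unfold fs
    refine Finset.sum_eq_zero fun r _ => ?_
    rw [hb]
    beta_reduce
    rw [if_neg hq, zero_mul]
  have hrt : ∀ q, d ^ 2 ≤ ρ2 q → d ≤ √(ρ2 q) := fun q hq => Real.le_sqrt_of_sq_le hq
  have hn2 : ∀ q x, d ^ 2 ≤ ρ2 q → ‖fs J (b q) (fun r => φ r q) x‖ ^ 2 =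
      ‖(fam J φ u q).f x‖ ^ 2 / ρ2 q := by
    intro q x hq
    rw [hfs q x hq, norm_div, Complex.norm_real, Real.norm_eq_abs, abs_of_nonneg (Real.sqrt_nonneg _),
      div_pow, Real.sq_sqrt (hρ0 q)]
  refine ⟨b, fun q r => φ r q, ⟨?_, ?_, ?_, ?_⟩, ?_⟩
  · intro q _ r _
    rw [hb]
    beta_reduce
    split_ifs with h
    · rw [norm_div, Complex.norm_real, Real.norm_eq_abs, abs_of_nonneg (Real.sqrt_nonneg _)]
      refine le_trans ?_ hAB
      exact div_le_div₀ hA (hu.cb r q) hd (hrt q h)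
    · rw [norm_zero]
      exact hB0
  · intro q _
    by_cases h : d ^ 2 ≤ ρ2 q
    · have hp : 0 < ρ2 q := lt_of_lt_of_le (by positivity) h
      have e : ∑ x ∈ Ioc n (n + 2 ^ m), ‖fs J (b q) (fun r => φ r q) x‖ ^ 2 =
          ((2 ^ m : ℕ) : ℝ) := by
        rw [Finset.sum_congr rfl fun x _ => hn2 q x h, ← Finset.sum_div, hρs q]
        field_simp
      rw [e]
      push_cast
      exact le_rfl
    · have e : ∑ x ∈ Ioc n (n + 2 ^ m), ‖fs J (b q) (fun r => φ r q) x‖ ^ 2 = 0 := by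
        refine Finset.sum_eq_zero fun x _ => ?_
        rw [hfs0 q x h]
        simp
      rw [e]
      positivity
  · intro q hq
    by_cases h : d ^ 2 ≤ ρ2 q
    · have hp : 0 < ρ2 q := lt_of_lt_of_le (by positivity) h
      rw [Finset.sum_congr rfl fun x _ => hn2 q x h, ← Finset.sum_div]
      have h1 := hqs q hq
      have h2 : (∑ x ∈ (Ioc n (n + 2 ^ m)).filter (fun x => q ∣ x),
          ‖(fam J φ u q).f x‖ ^ 2) * q ≤ 2 * ρ2 q * ((2 ^ m : ℕ) : ℝ) := by
        unfold ar at h1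
        rw [div_le_iff₀ hNm] at h1
        refine h1.trans (mul_le_mul_of_nonneg_right ?_ hNm.le)
        linarith
      rw [mul_div_assoc', div_le_iff₀ hp, mul_comm (q : ℝ)]
      refine h2.trans (le_of_eq ?_)
      push_cast
      ring
    · have e : ∑ x ∈ (Ioc n (n + 2 ^ m)).filter (fun x => q ∣ x),
          ‖fs J (b q) (fun r => φ r q) x‖ ^ 2 = 0 := by
        refine Finset.sum_eq_zero fun x _ => ?_
        rw [hfs0 q x h]
        simp
      rw [e, mul_zero]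
      positivity
  · intro r hr
    exact hu.nc r hr
  · have hone : ∀ q ∈ EB.QQ m, 1 / (q : ℝ) * (2 * (tx lam q (2 ^ m) n (fam J φ u q)).re -
        ar 1 (2 ^ m) n (fun x => ‖(fam J φ u q).f x‖ ^ 2)) ≤
        1 / (q : ℝ) * tt lam q (2 ^ m) n (fs J (b q) (fun r => φ r q)) ^ 2 +
          1 / (q : ℝ) * (8 * d) := by
      intro q hq
      rw [← mul_add]
      refine mul_le_mul_of_nonneg_left ?_ (by positivity)
      have hre := Complex.re_le_norm (tx lam q (2 ^ m) n (fam J φ u q))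
      show 2 * (tx lam q (2 ^ m) n (fam J φ u q)).re - ρ2 q ≤ _
      by_cases h : d ^ 2 ≤ ρ2 q
      · have hp : 0 < √(ρ2 q) := lt_of_lt_of_le hd (hrt q h)
        have e : tt lam q (2 ^ m) n (fs J (b q) (fun r => φ r q)) =
            ‖tx lam q (2 ^ m) n (fam J φ u q)‖ / √(ρ2 q) := by
          have e1 : ∀ x, (lam x : ℂ) * (EB.D q x : ℂ) *
              starRingEnd ℂ (fs J (b q) (fun r => φ r q) x) =
              (lam x : ℂ) * (EB.D q x : ℂ) * starRingEnd ℂ ((fam J φ u q).f x) /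
                (√(ρ2 q) : ℝ) := by
            intro x
            rw [hfs q x h, map_div₀, Complex.conj_ofReal]
            ring
          unfold tt
          rw [Finset.sum_congr rfl fun x _ => e1 x, ← Finset.sum_div, tx_eq, div_right_comm,
            norm_div, Complex.norm_real, Real.norm_eq_abs, abs_of_nonneg (Real.sqrt_nonneg _)]
        have e2 : ‖tx lam q (2 ^ m) n (fam J φ u q)‖ =
            tt lam q (2 ^ m) n (fs J (b q) (fun r => φ r q)) * √(ρ2 q) := by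
          rw [e, div_mul_cancel₀ _ hp.ne']
        have e3 := Real.sq_sqrt (hρ0 q)
        nlinarith [sq_nonneg (tt lam q (2 ^ m) n (fs J (b q) (fun r => φ r q)) - √(ρ2 q))]
      · have hlt : ρ2 q < d ^ 2 := not_le.mp h
        obtain ⟨h1, h2⟩ := hq1 q hq
        have h3 := tx_le lam q (2 ^ m) n (fam J φ u q) hl
        have h4 := ar_half q (2 ^ m) n (fun x => ‖(fam J φ u q).f x‖) d hd h1 h2
        have h5 := ar_half 1 (2 ^ m) n (fun x => ‖(fam J φ u q).f x‖) d hd le_rfl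
          Nat.one_le_two_pow
        have h6 := hqs q hq
        have h7 : 1 / (2 * d) * ar q (2 ^ m) n (fun x => ‖(fam J φ u q).f x‖ ^ 2) ≤ d := by
          have h8 := mul_le_mul_of_nonneg_left (h6.trans (by linarith : ρ2 q + d ^ 2 ≤ 2 * d ^ 2))
            (by positivity : 0 ≤ 1 / (2 * d))
          refine h8.trans (le_of_eq ?_)
          field_simp
        have h9 : 1 / (2 * d) * ar 1 (2 ^ m) n (fun x => ‖(fam J φ u q).f x‖ ^ 2) ≤ d := by
          have h8 := mul_le_mul_of_nonneg_left (hlt.le.trans (by nlinarith : d ^ 2 ≤ 2 * d ^ 2))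
            (by positivity : 0 ≤ 1 / (2 * d))
          refine h8.trans (le_of_eq ?_)
          field_simp
        have h10 := hρ0 q
        have h11 := sq_nonneg (tt lam q (2 ^ m) n (fs J (b q) (fun r => φ r q)))
        linarith
    have h1 : fv lam m n J φ u ≤ ∑ q ∈ EB.QQ m, (1 / (q : ℝ) *
        tt lam q (2 ^ m) n (fs J (b q) (fun r => φ r q)) ^ 2 + 1 / (q : ℝ) * (8 * d)) := by
      unfold fv
      exact Finset.sum_le_sum hone
    rw [Finset.sum_add_distrib, ← Finset.sum_mul] at h1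
    have h2 := hM m ((le_max_right _ _).trans hm)
    have h3 := mul_le_mul_of_nonneg_right h2 (by positivity : 0 ≤ 8 * d)
    unfold Pt
    linarith

end Pool.Agent.H38.G9.BSU

namespace Pool.Agent.H38.G9

open Finset Pool.Agent.H6.N4D Pool.Agent.H93 Pool.Agent.H93.GS Pool.Agent.H6.GS2 Pool.Agent.H6.G9
open Pool.Agent.H3.BT (TC Pt)
open Pool.Agent.H84.GS (hs)

theorem lg_add_const (X : ℕ) (f : ℕ → ℝ) (c : ℝ) :
    EB.lg X (fun n => f n + c) = EB.lg X f + c * hs X := by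
  unfold Pool.Agent.H93.EB.lg hs
  rw [Finset.mul_sum, ← Finset.sum_add_distrib]
  refine Finset.sum_congr rfl fun n _ => ?_
  ring

theorem pf_BSU (hT : Pool.Agent.H3.BT.T_BTS) (hN : T_NRS) (hU : T_UBB) : T_BSU := by
  obtain ⟨B₀, C₁, hB₀, hC₁, hT⟩ := hT
  obtain ⟨m₁, hcore⟩ := BSU.core hN
  refine ⟨1000 * B₀, C₁, by omega, hC₁, ?_⟩
  intro R J A hA
  obtain ⟨s₁, hT⟩ := hT R J
  obtain ⟨m₂, C₂, -, hU⟩ := hU J A hA
  obtain ⟨a, ha⟩ := pow_unbounded_of_one_lt A (by norm_num : (1 : ℝ) < 2)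
  obtain ⟨a', ha'⟩ := pow_unbounded_of_one_lt (((J : ℝ) * A) ^ 2) (by norm_num : (1 : ℝ) < 2)
  refine ⟨s₁ + m₁ + m₂ + 2 * B₀ * (a + 1) + a' + 1000 * B₀, ?_⟩
  intro s X K k₁ lam e m hss hX he hl hbase hK hm0 hmi hmk
  have hX3 : (3 : ℝ) ≤ X := by exact_mod_cast hX
  have hlX : 1 ≤ Real.log X := by
    have h1 : Real.exp 1 ≤ X := by
      have := Real.exp_one_lt_d9
      linarith
    exact (Real.le_log_iff_exp_le (by linarith)).mpr h1
  have hsB : s ≤ 1000 * B₀ * s := Nat.le_mul_of_pos_left _ (by omega)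
  have h1000 : 1000 * s ≤ 1000 * B₀ * s := by
    have : s ≤ B₀ * s := Nat.le_mul_of_pos_left _ (by omega)
    calc 1000 * s ≤ 1000 * (B₀ * s) := Nat.mul_le_mul_left _ this
      _ = 1000 * B₀ * s := by ring
  -- all levels are large
  have hml : ∀ i < K, 1000 * s ≤ m i := by
    intro i
    induction i with
    | zero => intro _; omega
    | succ i ih =>
      intro hi
      have h1 := ih (by omega)
      have h2 := hmi i hi
      have h3 : m i ≤ 1000 * B₀ * m i := Nat.le_mul_of_pos_left _ (by omega)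
      omega
  set d : ℝ := (1 / 2) ^ (s / (2 * B₀)) with hd
  have hd0 : 0 < d := by positivity
  have hdiv : 2 * (s / (2 * B₀)) ≤ s / B₀ := by
    rw [mul_comm 2 B₀, ← Nat.div_div_eq_div_mul]
    omega
  have hsB0 : s / B₀ ≤ s := Nat.div_le_self _ _
  have haa : a ≤ s / (2 * B₀) := by
    rw [Nat.le_div_iff_mul_le (by omega)]
    nlinarith
  have hAd : A / d ≤ 2 ^ (s / B₀) := by
    have e : A / d = A * 2 ^ (s / (2 * B₀)) := by
      rw [hd, one_div, inv_pow, div_inv_eq_mul]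
    rw [e]
    calc A * 2 ^ (s / (2 * B₀)) ≤ 2 ^ (s / (2 * B₀)) * 2 ^ (s / (2 * B₀)) := by
          refine mul_le_mul_of_nonneg_right (ha.le.trans ?_) (by positivity)
          exact pow_le_pow_right₀ (by norm_num) haa
      _ = 2 ^ (2 * (s / (2 * B₀))) := by rw [← pow_add]; congr 1; ring
      _ ≤ 2 ^ (s / B₀) := pow_le_pow_right₀ (by norm_num) hdiv
  have hJd : ∀ i < K, ((J : ℝ) * A) ^ 2 * (1 / 2) ^ (m i / 300) ≤ d ^ 2 := by
    intro i hi
    have h1 := hml i hi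
    have h2 : 3 * s ≤ m i / 300 := by omega
    have h3 : ((1 : ℝ) / 2) ^ (m i / 300) ≤ (1 / 2) ^ (3 * s) :=
      pow_le_pow_of_le_one (by norm_num) (by norm_num) h2
    have h4 : ((J : ℝ) * A) ^ 2 ≤ 2 ^ s :=
      ha'.le.trans (pow_le_pow_right₀ (by norm_num) (by omega))
    calc ((J : ℝ) * A) ^ 2 * (1 / 2) ^ (m i / 300) ≤ 2 ^ s * (1 / 2) ^ (3 * s) :=
          mul_le_mul h4 h3 (by positivity) (by positivity)
      _ = (1 / 2) ^ (2 * s) := by
          have e : (3 : ℕ) * s = s + 2 * s := by ring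
          rw [e, pow_add, ← mul_assoc, ← mul_pow]
          norm_num
      _ ≤ (1 / 2) ^ (2 * (s / (2 * B₀))) :=
          pow_le_pow_of_le_one (by norm_num) (by norm_num) (by omega)
      _ = d ^ 2 := by rw [hd, ← pow_mul]; congr 1; ring
  have key : ∀ i n, ∃ (b : ℕ → ℕ → ℂ) (α : ℕ → ℕ → ℝ), i < K →
      TC (m i) n J (2 ^ (s / B₀)) b α ∧
        UB lam J A (m i) n ≤ Pt lam (m i) n J b α + (12 * d + (1 / 2) ^ s) := by
    intro i n
    by_cases hi : i < K
    · have h1 := hml i hi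
      obtain ⟨φ, u, h2, h3⟩ := (hU lam (m i) n (by omega) hl).2.2.2.1 ((1 / 2) ^ s) (by positivity)
      obtain ⟨b, α, h4, h5⟩ := hcore J A (2 ^ (s / B₀)) d lam (m i) n φ u (by omega) hd0 hA hAd
        (hJd i hi) hl h2
      exact ⟨b, α, fun _ => ⟨h4, by linarith⟩⟩
    · exact ⟨fun _ _ => 0, fun _ _ => 0, fun h => absurd h hi⟩
  choose b α hkey using key
  have hK' : K ≤ 2 ^ (s / B₀) := hK.trans (Nat.pow_le_pow_right (by norm_num)
    (Nat.div_le_div_left (by omega) (by omega)))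
  have h0 := hT s X K k₁ lam e m b α (by omega) hX hl hbase hK'
    ((Nat.mul_le_mul_right s (by omega : B₀ ≤ 1000 * B₀)).trans hm0)
    (fun i hi => (Nat.mul_le_mul_right (m i) (by omega : B₀ ≤ 1000 * B₀)).trans (hmi i hi))
    hmk (fun i hi n => (hkey i n hi).1)
  have hhs : hs X ≤ 2 * Real.log X := by
    have := Pool.Agent.H84.GS.hs_le X (by omega)
    linarith
  have h1 : ∑ i ∈ range K, EB.lg X (fun n => UB lam J A (m i) n) ≤
      ∑ i ∈ range K, (EB.lg X (fun n => Pt lam (m i) n J (b i n) (α i n)) +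
        (12 * d + (1 / 2) ^ s) * (2 * Real.log X)) := by
    refine Finset.sum_le_sum fun i hi => ?_
    have h2 := Pool.Agent.H84.GS.lg_mono X (fun n => UB lam J A (m i) n)
      (fun n => Pt lam (m i) n J (b i n) (α i n) + (12 * d + (1 / 2) ^ s))
      (fun n => (hkey i n (mem_range.mp hi)).2)
    rw [lg_add_const X (fun n => Pt lam (m i) n J (b i n) (α i n))] at h2
    refine h2.trans (add_le_add le_rfl ?_)
    exact mul_le_mul_of_nonneg_left hhs (by positivity)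
  rw [Finset.sum_add_distrib, Finset.sum_const, card_range, nsmul_eq_mul] at h1
  -- the parameters
  set j := s / (1000 * B₀) with hj
  have hj1 : 1 ≤ j := by
    rw [hj, Nat.le_div_iff_mul_le (by omega)]
    omega
  have hjs : 1000 * B₀ * j ≤ s := by rw [hj]; exact Nat.mul_div_le _ _
  have hj2 : 500 * j ≤ s / (2 * B₀) := by
    rw [Nat.le_div_iff_mul_le (by omega)]
    refine le_trans (le_of_eq ?_) hjs
    ring
  have hj3 : 500 * j ≤ s / B₀ := by omega
  have hj4 : 500 * j ≤ s := by omega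
  have hd1 : d ≤ (1 / 2) ^ (500 * j) := pow_le_pow_of_le_one (by norm_num) (by norm_num) hj2
  have hd2 : ((1 : ℝ) / 2) ^ s ≤ (1 / 2) ^ (500 * j) :=
    pow_le_pow_of_le_one (by norm_num) (by norm_num) hj4
  have hd3 : ((1 : ℝ) / 2) ^ (s / B₀) ≤ (1 / 2) ^ (500 * j) :=
    pow_le_pow_of_le_one (by norm_num) (by norm_num) hj3
  have hKr : (K : ℝ) ≤ 2 ^ j := by exact_mod_cast hK
  have hpow : (2 : ℝ) ^ j * (1 / 2) ^ (500 * j) * 27 ≤ (1 / 2) ^ j := by
    have e1 : 500 * j = j + (j + 498 * j) := by ring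
    have e2 : (2 : ℝ) ^ j * (1 / 2) ^ (500 * j) = (1 / 2) ^ j * (1 / 2) ^ (498 * j) := by
      rw [e1, pow_add, pow_add, ← mul_assoc, ← mul_pow]
      norm_num
    rw [e2, mul_assoc]
    refine mul_le_of_le_one_right (by positivity) ?_
    have h3 : ((1 : ℝ) / 2) ^ (498 * j) ≤ (1 / 2) ^ 5 :=
      pow_le_pow_of_le_one (by norm_num) (by norm_num) (by omega)
    have h4 : ((1 : ℝ) / 2) ^ 5 * 27 ≤ 1 := by norm_num
    linarith
  have hx0 : (0 : ℝ) < (1 / 2) ^ (500 * j) := by positivity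
  have h2j : (1 : ℝ) ≤ 2 ^ j := one_le_pow₀ (by norm_num)
  have h5 : (K : ℝ) * ((12 * d + (1 / 2) ^ s) * (2 * Real.log X)) +
      (1 / 2) ^ (s / B₀) * Real.log X ≤ (1 / 2) ^ j * Real.log X := by
    have h6 : (K : ℝ) * ((12 * d + (1 / 2) ^ s) * (2 * Real.log X)) ≤
        2 ^ j * ((13 * (1 / 2) ^ (500 * j)) * (2 * Real.log X)) := by
      refine mul_le_mul hKr (mul_le_mul_of_nonneg_right (by linarith) (by linarith))
        (by positivity) (by positivity)
    have h7 : (1 / 2 : ℝ) ^ (s / B₀) * Real.log X ≤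
        2 ^ j * (1 / 2) ^ (500 * j) * Real.log X := by
      refine mul_le_mul_of_nonneg_right ?_ (by linarith)
      nlinarith
    have h8 := mul_le_mul_of_nonneg_right hpow (by linarith : 0 ≤ Real.log (X : ℝ))
    nlinarith
  have h9 : (C₁ * e + (1 / 2) ^ (s / B₀)) * Real.log X =
      C₁ * e * Real.log X + (1 / 2) ^ (s / B₀) * Real.log X := by ring
  have h10 : (C₁ * e + (1 / 2) ^ j) * Real.log X =
      C₁ * e * Real.log X + (1 / 2) ^ j * Real.log X := by ring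
  rw [h10]
  rw [h9] at h0
  linarith

end Pool.Agent.H38.G9
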