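import Pool.Agent.H6.G9.Targets
import Pool.Agent.H84.GS.GMQ
import Pool.Agent.H84.GS.MNG

/-!
# Theorem (H), MP_c59857_nt, row GMD: the defects at the scales `D m` are summable
-/

set_option autoImplicit false

namespace Pool.Agent.H38.G9

open Finset Pool.Agent.H6.N4D Pool.Agent.H93 Pool.Agent.H93.GS Pool.Agent.H6.G9

theorem pf_GMD : T_GMD := by
  intro th p₀ D hth hth1 hD
  obtain ⟨C, hC, hM⟩ := Pool.Agent.H84.GS.pf_MNG th hth hth1
  refine ⟨8 * (p₀ + 1) + C * (D + 1), by positivity, ?_⟩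
  intro X m₀ me lam hX hl hm₀ hme
  have hX3 : (3 : ℝ) ≤ X := by exact_mod_cast hX
  have hlX : 1 ≤ Real.log X := by
    have h1 : Real.exp 1 ≤ X := by
      have := Real.exp_one_lt_d9
      linarith
    exact (Real.le_log_iff_exp_le (by linarith)).mpr h1
  have hm0 : (0 : ℝ) < m₀ := by exact_mod_cast (by omega : 0 < m₀)
  set u : ℕ → ℝ := fun j => Pool.Agent.H84.GS.aq th lam X 1 (D * j) with hu
  -- one level
  have h1 : ∀ m ∈ Icc m₀ me, 1 / (m : ℝ) * gm th lam X p₀ (D * m) ≤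
      1 / (m : ℝ) * (u (m - p₀) - u m) + C * (D + 1) := by
    intro m hm
    rw [mem_Icc] at hm
    have hmp : (0 : ℝ) < m := by exact_mod_cast (by omega : 0 < m)
    have hm1 : (1 : ℝ) ≤ m := by exact_mod_cast (by omega : 1 ≤ m)
    have hle : D * (m - p₀) ≤ D * m - p₀ := by
      rw [Nat.mul_sub]
      have : p₀ ≤ D * p₀ := Nat.le_mul_of_pos_left _ (by omega)
      omega
    have h2 := hM X (D * (m - p₀)) (D * m - p₀) 1 lam hX hl hle le_rfl Nat.one_le_two_pow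
    have h3 : gm th lam X p₀ (D * m) ≤ (u (m - p₀) - u m) + C * (D * m + 1) := by
      have h4 : ((D * m - p₀ : ℕ) : ℝ) ≤ D * m := by
        exact_mod_cast Nat.sub_le (D * m) p₀
      have h5 : C * (((D * m - p₀ : ℕ) : ℝ) + 1) ≤ C * (D * m + 1) :=
        mul_le_mul_of_nonneg_left (by linarith) hC.le
      rw [hu]
      unfold gm Pool.Agent.H84.GS.aq
      beta_reduce
      linarith
    have h6 : 1 / (m : ℝ) * (C * (D * m + 1)) ≤ C * (D + 1) := by
      have h7 : 1 / (m : ℝ) * (C * (D * m + 1)) = C * (D + 1 / m) := by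
        field_simp
      rw [h7]
      have h8 : 1 / (m : ℝ) ≤ 1 := by
        rw [div_le_one hmp]; exact hm1
      exact mul_le_mul_of_nonneg_left (by linarith) hC.le
    have h9 := mul_le_mul_of_nonneg_left h3 (by positivity : (0 : ℝ) ≤ 1 / (m : ℝ))
    rw [mul_add] at h9
    linarith
  refine (Finset.sum_le_sum h1).trans ?_
  rw [Finset.sum_add_distrib, Finset.sum_const, nsmul_eq_mul]
  have h := Pool.Agent.H84.GS.shift_sum u (4 * Real.log X) p₀ m₀ me (by omega)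
    (fun j _ => Pool.Agent.H84.GS.aq_nonneg th lam X 1 _ hth hl le_rfl Nat.one_le_two_pow)
    (fun j _ => Pool.Agent.H84.GS.aq_le th lam X 1 _ hth hl le_rfl Nat.one_le_two_pow hX hlX)
  have hd : (0 : ℝ) < ((m₀ - p₀ : ℕ) : ℝ) := by exact_mod_cast (by omega : 0 < m₀ - p₀)
  have h2 : p₀ * (4 * Real.log X) / ((m₀ - p₀ : ℕ) : ℝ) ≤ 8 * p₀ * Real.log X / m₀ := by
    rw [div_le_div_iff₀ hd hm0]
    have h1 : (m₀ : ℝ) ≤ 2 * ((m₀ - p₀ : ℕ) : ℝ) := by
      exact_mod_cast (by omega : m₀ ≤ 2 * (m₀ - p₀))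
    have h2 : 0 ≤ (p₀ : ℝ) * (4 * Real.log X) := by positivity
    have h3 := mul_le_mul_of_nonneg_left h1 h2
    linarith
  have hcard : ((Icc m₀ me).card : ℝ) ≤ me + 1 := by
    rw [Nat.card_Icc]
    exact_mod_cast (by omega : me + 1 - m₀ ≤ me + 1)
  have h3 : ((Icc m₀ me).card : ℝ) * (C * (D + 1)) ≤ (me + 1) * (C * (D + 1)) :=
    mul_le_mul_of_nonneg_right hcard (by positivity)
  have h4 : 0 ≤ Real.log (me : ℝ) := Real.log_nonneg (by exact_mod_cast (by omega : 1 ≤ me))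
  have h5 : 8 * p₀ * Real.log X / (m₀ : ℝ) ≤
      (8 * (p₀ + 1) + C * (D + 1)) / m₀ * Real.log X := by
    rw [div_mul_eq_mul_div]
    refine div_le_div_of_nonneg_right ?_ hm0.le
    have h6 : 0 ≤ Real.log (X : ℝ) := by linarith
    have h7 : 0 ≤ C * (D + 1) * Real.log (X : ℝ) := by positivity
    nlinarith
  have h6 : (me + 1) * (C * (D + 1)) ≤
      (8 * ((p₀ : ℝ) + 1) + C * (D + 1)) * (me + 1) * (1 + Real.log me) := by
    have h7 : 0 ≤ (8 * ((p₀ : ℝ) + 1) + C * (D + 1)) * (me + 1) * Real.log me := by positivity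
    have h8 : 0 ≤ 8 * ((p₀ : ℝ) + 1) * (me + 1) := by positivity
    nlinarith
  linarith

end Pool.Agent.H38.G9
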